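import Mathlib

set_option autoImplicit false

namespace Pool.Agent.Lib.helper11.Mahler

open PowerSeries Finset

variable {R : Type} [CommRing R]

noncomputable def geo (R : Type) [Semiring R] (m : ℕ) : R⟦X⟧ :=
  PowerSeries.mk fun j => if m ∣ j then 1 else 0

lemma geo_mul (m : ℕ) (hm : m ≠ 0) : geo R m * (1 - X ^ m) = 1 := by
  ext j
  rw [mul_sub, mul_one, map_sub, coeff_mul_X_pow', coeff_one]
  simp only [geo, coeff_mk]
  by_cases h : m ≤ j
  · rw [if_pos h, if_neg (show j ≠ 0 by omega)]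
    simp [Nat.dvd_sub_iff_left h (dvd_refl m)]
  · rw [if_neg h, sub_zero]
    by_cases h0 : j = 0
    · simp [h0]
    · rw [if_neg h0, if_neg fun h' => h (Nat.le_of_dvd (by omega) h')]

lemma map_geo {S T : Type} [Semiring S] [Semiring T] (f : S →+* T) (m : ℕ) :
    PowerSeries.map f (geo S m) = geo T m := by
  ext j
  simp only [geo, coeff_map, coeff_mk]
  split_ifs <;> simp

lemma expand_geo (q : ℕ) (hq : q ≠ 0) (m : ℕ) : expand q hq (geo R m) = geo R (q * m) := by
  ext j
  rw [coeff_expand]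
  simp only [geo, coeff_mk]
  by_cases h : q ∣ j
  · obtain ⟨k, rfl⟩ := h
    simp [Nat.mul_div_cancel_left _ (Nat.pos_of_ne_zero hq), Nat.mul_dvd_mul_iff_left
      (Nat.pos_of_ne_zero hq)]
  · rw [if_neg h, if_neg fun h' => h ((dvd_mul_right q m).trans h')]

/-- multiplying by a power of `geo m` does not change coefficients below `m` -/
lemma coeff_geo_pow_mul (m t n : ℕ) (h : n < m) (f : R⟦X⟧) :
    coeff n (geo R m ^ t * f) = coeff n f := by
  have h2 : X ^ m ∣ geo R m ^ t - 1 := by
    refine Dvd.dvd.trans ⟨geo R m, ?_⟩ (sub_one_dvd_pow_sub_one _ t)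
    linear_combination geo_mul (R := R) m (by omega)
  have h3 := X_pow_dvd_iff.mp (h2.mul_right f) n h
  rwa [sub_mul, one_mul, map_sub, sub_eq_zero] at h3

lemma coeff_prod_stable (q t n : ℕ) (hq : 1 < q) (f : R⟦X⟧) (N M : ℕ) (hN : n < q ^ N)
    (hM : N ≤ M) : coeff n (f * ∏ i ∈ range M, geo R (q ^ i) ^ t) =
      coeff n (f * ∏ i ∈ range N, geo R (q ^ i) ^ t) := by
  induction M, hM using Nat.le_induction with
  | base => rfl
  | succ M hM ih =>
    rw [prod_range_succ, ← mul_assoc, mul_comm, coeff_geo_pow_mul _ _ _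
      (hN.trans_le (Nat.pow_le_pow_right (by omega) hM)), ih]

/-- the section operator -/
noncomputable def U (q : ℕ) : R⟦X⟧ →ₗ[R] R⟦X⟧ where
  toFun f := PowerSeries.mk fun n => coeff (q * n) f
  map_add' f g := by ext; simp
  map_smul' c f := by ext; simp

lemma coeff_U (q n : ℕ) (f : R⟦X⟧) : coeff n (U q f) = coeff (q * n) f := by
  simp [U]

lemma U_mul_expand (q : ℕ) (hq : q ≠ 0) (f g : R⟦X⟧) :
    U q (f * expand q hq g) = U q f * g := by
  ext n
  rw [coeff_U, coeff_mul, coeff_mul]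
  symm
  refine sum_of_injOn (fun p : ℕ × ℕ => (q * p.1, q * p.2)) ?_ ?_ ?_ ?_
  · intro a _ b _ h
    simp only [Prod.mk.injEq, mul_eq_mul_left_iff, hq, or_false] at h
    exact Prod.ext h.1 h.2
  · intro p hp
    simp only [mem_coe, HasAntidiagonal.mem_antidiagonal] at hp ⊢
    rw [← hp, mul_add]
  · intro p hp h
    rw [coeff_expand_of_not_dvd, mul_zero]
    rintro ⟨b, hb⟩
    rw [HasAntidiagonal.mem_antidiagonal] at hp
    have h1 : q ∣ p.1 := (Nat.dvd_add_left ⟨b, hb⟩).mp (hp ▸ dvd_mul_right q n)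
    obtain ⟨a, ha⟩ := h1
    refine h ⟨(a, b), ?_, by simp [← ha, ← hb]⟩
    simp only [mem_coe, HasAntidiagonal.mem_antidiagonal]
    rw [ha, hb, ← mul_add] at hp
    exact Nat.eq_of_mul_eq_mul_left (Nat.pos_of_ne_zero hq) hp
  · intro p _
    rw [coeff_U, coeff_expand_mul]

lemma U_one (q : ℕ) (hq : q ≠ 0) : U q (1 : R⟦X⟧) = 1 := by
  ext n
  simp [coeff_U, coeff_one, hq]

/-! window automaton -/

noncomputable def poly (R : Type) [CommRing R] : List ℕ → R⟦X⟧
  | [] => 0
  | c :: l => (c : R⟦X⟧) + X * poly R l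

def ev (q e : ℕ) (w : List ℕ) : List ℕ → ℕ → ℕ
  | [], _ => 0
  | c :: l, j => (if j % q = e then c * w.getD (j / q) 0 else 0) + ev q e w l (j + 1)

def Rep (A : R⟦X⟧) (n : ℕ) (w : List ℕ) : Prop :=
  ∀ j < w.length, coeff n (X ^ j * A) = ((w.getD j 0 : ℕ) : R)

lemma coeff_X_pow_expand (q : ℕ) (hq : q ≠ 0) (e n j : ℕ) (he : e < q) (A : R⟦X⟧) :
    coeff (q * n + e) (X ^ j * expand q hq A) =
      if j % q = e then coeff n (X ^ (j / q) * A) else 0 := by
  have h1 : X ^ j * expand q hq A = X ^ (j % q) * expand q hq (X ^ (j / q) * A) := by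
    rw [map_mul, map_pow, expand_X, ← pow_mul, ← mul_assoc, ← pow_add, Nat.mod_add_div]
  have h2 := Nat.mod_lt j (Nat.pos_of_ne_zero hq)
  rw [h1, coeff_X_pow_mul']
  generalize j % q = r at h2
  split_ifs with h3 h4 h4
  · rw [h4, Nat.add_sub_cancel, coeff_expand_mul]
  · refine coeff_expand_of_not_dvd _ _ _ ?_
    rintro ⟨c, hc⟩
    have h5 : q * n + e = q * c + r := by omega
    have := congrArg (· % q) h5
    simp only [Nat.mul_add_mod, Nat.mod_eq_of_lt he, Nat.mod_eq_of_lt h2] at this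
    exact h4 this.symm
  · omega
  · rfl

lemma coeff_poly_expand (q : ℕ) (hq : q ≠ 0) (e n : ℕ) (he : e < q) (A : R⟦X⟧) (w : List ℕ)
    (h : Rep A n w) (l : List ℕ) (j : ℕ) (hj : j + l.length ≤ q * w.length) :
    coeff (q * n + e) (X ^ j * (poly R l * expand q hq A)) = ((ev q e w l j : ℕ) : R) := by
  induction l generalizing j with
  | nil => simp [poly, ev]
  | cons c l ih =>
    rw [List.length_cons] at hj
    have e1 : X ^ j * (poly R (c :: l) * expand q hq A) =
        C (c : R) * (X ^ j * expand q hq A) + X ^ (j + 1) * (poly R l * expand q hq A) := by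
      rw [poly, map_natCast]
      ring
    rw [e1, map_add, coeff_C_mul, ih (j + 1) (by omega), coeff_X_pow_expand q hq e n j he, ev]
    split_ifs
    · rw [h _ (Nat.div_lt_of_lt_mul (by omega))]
      push_cast
      ring
    · simp

def step (q M e : ℕ) (l w : List ℕ) : List ℕ :=
  (List.range w.length).map fun j => ev q e w l j % M

lemma rep_step (q M : ℕ) (hM : (M : R) = 0) (hq : q ≠ 0) (e n : ℕ) (he : e < q) (A : R⟦X⟧)
    (w : List ℕ) (h : Rep A n w) (l : List ℕ) (hl : w.length + l.length ≤ q * w.length + 1) :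
    Rep (poly R l * expand q hq A) (q * n + e) (step q M e l w) := by
  intro j hj
  simp only [step, List.length_map, List.length_range] at hj
  rw [coeff_poly_expand q hq e n he A w h l j (by omega), step, List.getD_eq_getElem _ _
    (by simpa using hj)]
  simp only [List.getElem_map, List.getElem_range]
  conv_lhs => rw [← Nat.mod_add_div (ev q e w l j) M]
  rw [Nat.cast_add, Nat.cast_mul, hM, zero_mul, add_zero]

lemma window (q M L : ℕ) (hM : (M : R) = 0) (hq : q ≠ 0) (l : List ℕ)
    (hl : L + 1 + l.length ≤ q * (L + 1) + 1) (S : List (List ℕ))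
    (h0 : (1 :: List.replicate L 0) ∈ S) (hS : ∀ w ∈ S, ∀ e < q, step q M e l w ∈ S)
    (A : ℕ → R⟦X⟧) (hA0 : A 0 = 1) (hA : ∀ N, A (N + 1) = poly R l * expand q hq (A N))
    (N n : ℕ) (hn : n < q ^ N) : ∃ w ∈ S, w.length = L + 1 ∧ Rep (A N) n w := by
  induction N generalizing n with
  | zero =>
    obtain rfl : n = 0 := by simpa using hn
    refine ⟨_, h0, by simp, fun j _ => ?_⟩
    rcases j with _ | j
    · simp [hA0]
    · simp [hA0, List.getD_eq_getElem?_getD, List.getElem?_replicate]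
      split_ifs <;> simp
  | succ N ih =>
    have hq' := Nat.pos_of_ne_zero hq
    obtain ⟨w, hw, hw1, hw2⟩ := ih (n / q) (Nat.div_lt_of_lt_mul (by rwa [pow_succ'] at hn))
    refine ⟨_, hS w hw (n % q) (Nat.mod_lt _ hq'), by simp [step, hw1], ?_⟩
    have := rep_step q M hM hq (n % q) (n / q) (Nat.mod_lt _ hq') (A N) w hw2 l (by rwa [hw1])
    rwa [Nat.div_add_mod, ← hA] at this

/-- cheap closure check: `I` lists, for every state, the indices of its `q` successors -/
def chk (q M : ℕ) (l : List ℕ) (S : List (List ℕ)) : List (List ℕ) → List (List ℕ) → Bool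
  | [], _ => true
  | _ :: _, [] => false
  | w :: W, i :: I => ((List.range q).all fun e =>
      (S[i.getD e 0]?).any fun v => step q M e l w == v) && chk q M l S W I

lemma chk_sound (q M : ℕ) (l : List ℕ) (S W I : List (List ℕ)) (h : chk q M l S W I = true) :
    ∀ w ∈ W, ∀ e < q, step q M e l w ∈ S := by
  induction W generalizing I with
  | nil => simp
  | cons w W ih =>
    rcases I with _ | ⟨i, I⟩
    · simp [chk] at h
    simp only [chk, Bool.and_eq_true, List.all_eq_true, List.mem_range, Option.any_eq_true,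
      beq_iff_eq] at h
    intro v hv e he
    rcases List.mem_cons.mp hv with rfl | hv
    · obtain ⟨a, ha, hb⟩ := h.1 e he
      exact hb ▸ List.mem_of_getElem? ha
    · exact ih I h.2 v hv e he

end Pool.Agent.Lib.helper11.Mahler
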