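import Mathlib

namespace Pool.Agent.Lib.helper11.Cover

variable {ι : Type*}

def costs (G : ι → Set ℤ) (w : ι → ℝ) (Z : Set ℤ) : Set ℝ :=
  {c | ∃ F : Finset ι, Z ⊆ ⋃ i ∈ F, G i ∧ c = ∑ i ∈ F, w i}

noncomputable def mu (G : ι → Set ℤ) (w : ι → ℝ) (Z : Set ℤ) : ℝ := sInf (costs G w Z)

structure Sys (G : ι → Set ℤ) (w : ι → ℝ) : Prop where
  nn : ∀ i, 0 ≤ w i
  top : 1 ∈ costs G w Set.univ

variable {G : ι → Set ℤ} {w : ι → ℝ}

lemma bdd (S : Sys G w) (Z : Set ℤ) : BddBelow (costs G w Z) :=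
  ⟨0, by rintro _ ⟨F, -, rfl⟩; exact Finset.sum_nonneg fun i _ => S.nn i⟩

lemma one_mem (S : Sys G w) (Z : Set ℤ) : 1 ∈ costs G w Z := by
  obtain ⟨F, h, e⟩ := S.top
  exact ⟨F, (Set.subset_univ _).trans h, e⟩

lemma mu_le_one (S : Sys G w) (Z : Set ℤ) : mu G w Z ≤ 1 := csInf_le (bdd S Z) (one_mem S Z)

lemma mu_le (S : Sys G w) {Z : Set ℤ} (F : Finset ι) (h : Z ⊆ ⋃ i ∈ F, G i) :
    mu G w Z ≤ ∑ i ∈ F, w i := csInf_le (bdd S Z) ⟨F, h, rfl⟩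

lemma mu_le_gen (S : Sys G w) {Z : Set ℤ} (i : ι) (h : Z ⊆ G i) : mu G w Z ≤ w i := by
  simpa using mu_le S {i} (by simpa using h)

lemma le_mu (S : Sys G w) {Z : Set ℤ} {c : ℝ}
    (h : ∀ F : Finset ι, Z ⊆ ⋃ i ∈ F, G i → c ≤ ∑ i ∈ F, w i) : c ≤ mu G w Z :=
  le_csInf ⟨1, one_mem S Z⟩ (by rintro _ ⟨F, h1, rfl⟩; exact h F h1)

lemma mu_nonneg (S : Sys G w) (Z : Set ℤ) : 0 ≤ mu G w Z :=
  le_mu S fun _ _ => Finset.sum_nonneg fun i _ => S.nn i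

lemma exists_cover (S : Sys G w) {Z : Set ℤ} {c : ℝ} (h : mu G w Z < c) :
    ∃ F : Finset ι, Z ⊆ ⋃ i ∈ F, G i ∧ ∑ i ∈ F, w i < c := by
  obtain ⟨_, ⟨F, h1, rfl⟩, h2⟩ := exists_lt_of_csInf_lt ⟨1, one_mem S Z⟩ h
  exact ⟨F, h1, h2⟩

lemma mu_mono (S : Sys G w) {Y Z : Set ℤ} (h : Y ⊆ Z) : mu G w Y ≤ mu G w Z :=
  le_mu S fun F hF => mu_le S F (h.trans hF)

lemma sum_union_le (S : Sys G w) [DecidableEq ι] (F F' : Finset ι) :
    ∑ i ∈ F ∪ F', w i ≤ ∑ i ∈ F, w i + ∑ i ∈ F', w i := by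
  rw [← Finset.sum_union_inter]
  exact le_add_of_nonneg_right (Finset.sum_nonneg fun i _ => S.nn i)

lemma mu_union (S : Sys G w) (Y Z : Set ℤ) : mu G w (Y ∪ Z) ≤ mu G w Y + mu G w Z := by
  classical
  refine le_of_forall_pos_le_add fun e he => ?_
  obtain ⟨F, h1, h2⟩ := exists_cover S (show mu G w Y < mu G w Y + e / 2 by linarith)
  obtain ⟨F', h3, h4⟩ := exists_cover S (show mu G w Z < mu G w Z + e / 2 by linarith)
  have h5 := mu_le S (Z := Y ∪ Z) (F ∪ F') (by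
    rw [Finset.set_biUnion_union]; exact Set.union_subset_union h1 h3)
  have := sum_union_le S F F'
  linarith

lemma mu_empty (S : Sys G w) : mu G w ∅ = 0 :=
  le_antisymm (by simpa using mu_le S (Z := ∅) ∅ (by simp)) (mu_nonneg S _)

lemma mu_biUnion (S : Sys G w) {κ : Type*} (F : Finset κ) (A : κ → Set ℤ) :
    mu G w (⋃ i ∈ F, A i) ≤ ∑ i ∈ F, mu G w (A i) := by
  classical
  induction F using Finset.induction_on with
  | empty => simp [mu_empty S]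
  | insert a F ha ih =>
    rw [Finset.set_biUnion_insert, Finset.sum_insert ha]
    linarith [mu_union S (A a) (⋃ i ∈ F, A i)]

lemma transfer (S : Sys G w) (R : ℤ → ℤ → Prop) (t : ℝ) (ht : 0 < t)
    (h : ∀ i, mu G w {y | ∃ x ∈ G i, R x y} ≤ t * w i) (Z : Set ℤ) :
    mu G w {y | ∃ x ∈ Z, R x y} ≤ t * mu G w Z := by
  rw [← div_le_iff₀' ht]
  refine le_mu S fun F hF => ?_
  rw [div_le_iff₀' ht, Finset.mul_sum]
  refine le_trans (mu_mono S ?_) ((mu_biUnion S F fun i => {y | ∃ x ∈ G i, R x y}).trans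
    (Finset.sum_le_sum fun i _ => h i))
  rintro y ⟨x, hx, hr⟩
  obtain ⟨i, hi, hx'⟩ := Set.mem_iUnion₂.1 (hF hx)
  exact Set.mem_iUnion₂.2 ⟨i, hi, x, hx', hr⟩

lemma affine (S : Sys G w) (k : ℕ) (hk : 0 < k) (h : ℤ)
    (push : ∀ i, mu G w ((fun x => k * x + h) '' G i) ≤ w i / k)
    (pull : ∀ i, mu G w ((fun x => k * x + h) ⁻¹' G i) ≤ k * w i) (Z : Set ℤ) :
    mu G w ((fun x => k * x + h) '' Z) = mu G w Z / k := by
  have hk' : (0 : ℝ) < k := by exact_mod_cast hk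
  have a := transfer S (fun x y => k * x + h = y) (1 / k) (by positivity)
    (fun i => by rw [one_div, inv_mul_eq_div]; exact push i) Z
  have b := transfer S (fun x y => k * y + h = x) k hk'
    (fun i => le_trans (mu_mono S (by rintro y ⟨x, hx, rfl⟩; exact hx)) (pull i))
    ((fun x => k * x + h) '' Z)
  refine le_antisymm (by rw [one_div, inv_mul_eq_div] at a; exact a) ?_
  rw [div_le_iff₀' hk']
  exact le_trans (mu_mono S (by intro y hy; exact ⟨_, ⟨y, hy, rfl⟩, rfl⟩)) b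

lemma ap_miss {κ : Type*} (T : Finset κ) (k : κ → ℕ) (h : κ → ℤ) (hk : ∀ i, 0 < k i)
    (hs : ∑ i ∈ T, (1 : ℝ) / k i < 1) : ∃ r : ℤ, ∀ i ∈ T, ¬ (k i : ℤ) ∣ r - h i := by
  classical
  by_contra hc
  push Not at hc
  set M := ∏ i ∈ T, k i with hM
  have hM0 : 0 < M := Finset.prod_pos fun i _ => hk i
  have h1 : Finset.Ico (0 : ℤ) M ⊆ T.biUnion fun i =>
      (Finset.Ico (0 : ℤ) M).filter fun r => r ≡ h i [ZMOD k i] := by
    intro r hr
    obtain ⟨i, hi, hd⟩ := hc r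
    exact Finset.mem_biUnion.2 ⟨i, hi, Finset.mem_filter.2 ⟨hr, (Int.modEq_iff_dvd.2 hd).symm⟩⟩
  have h2 := (Finset.card_le_card h1).trans Finset.card_biUnion_le
  have h3 : ∀ i ∈ T, (((Finset.Ico (0 : ℤ) M).filter fun r => r ≡ h i [ZMOD k i]).card : ℝ) =
      M * (1 / k i) := by
    intro i hi
    obtain ⟨d, hd⟩ : k i ∣ M := Finset.dvd_prod_of_mem k hi
    have h4 := Int.Ico_filter_modEq_card 0 M (r := k i) (by exact_mod_cast hk i) (h i)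
    have h5 : (k i : ℚ) ≠ 0 := by have := hk i; positivity
    have h6 : (((M : ℤ) : ℚ) - (h i : ℤ)) / ((k i : ℤ) : ℚ) =
        (((0 : ℤ) : ℚ) - (h i : ℤ)) / ((k i : ℤ) : ℚ) + (d : ℕ) := by
      rw [hd]; push_cast; field_simp; ring
    rw [h6, Int.ceil_add_natCast, add_sub_cancel_left, max_eq_left (by positivity)] at h4
    have h7 : (k i : ℝ) ≠ 0 := by have := hk i; positivity
    have h8 : (M : ℝ) * (1 / k i) = d := by rw [hd]; push_cast; field_simp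
    rw [h8]; exact_mod_cast h4
  have h9 : (M : ℝ) ≤ ∑ i ∈ T, (M : ℝ) * (1 / k i) := by
    rw [← Finset.sum_congr rfl h3]
    simp only [Int.card_Ico, sub_zero, Int.toNat_natCast] at h2
    exact_mod_cast h2
  rw [← Finset.mul_sum] at h9
  have : (0 : ℝ) < M := by exact_mod_cast hM0
  nlinarith

lemma ap_pull (k k' : ℕ) (hk : 0 < k) (h h' : ℤ) :
    ∃ x0 : ℤ, ∀ x : ℤ, (k' : ℤ) ∣ k * x + h - h' → ((k' / Nat.gcd k k' : ℕ) : ℤ) ∣ x - x0 := by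
  by_cases hx : ∃ x0 : ℤ, (k' : ℤ) ∣ k * x0 + h - h'
  · obtain ⟨x0, h0⟩ := hx
    refine ⟨x0, fun x h1 => ?_⟩
    have h2 : (k' : ℤ) ∣ k * (x - x0) := by
      have := h1.sub h0
      rwa [show k * x + h - h' - (k * x0 + h - h') = k * (x - x0) by ring] at this
    have hg : 0 < Nat.gcd k k' := Nat.gcd_pos_of_pos_left _ hk
    obtain ⟨a, b, hab, ha, hb⟩ := Nat.exists_coprime k k'
    have e : k' / Nat.gcd k k' = b := Nat.div_eq_of_eq_mul_left hg hb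
    rw [e]
    generalize Nat.gcd k k' = g at *
    subst ha hb
    push_cast at h2
    rw [mul_comm (a : ℤ) g, mul_comm (b : ℤ) g, mul_assoc] at h2
    exact (Nat.isCoprime_iff_coprime.2 hab.symm).dvd_of_dvd_mul_left
      ((mul_dvd_mul_iff_left (by positivity)).1 h2)
  · exact ⟨0, fun x h1 => absurd ⟨x, h1⟩ hx⟩

end Pool.Agent.Lib.helper11.Cover
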