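import Mathlib
import Pool.Agent.Lib.helper9.BorsukUlam

namespace Pool.Agent.Lib.helper11.IoD

open Set Metric

variable {E : Type*} [NormedAddCommGroup E] [NormedSpace ℝ E] [FiniteDimensional ℝ E]

theorem core (h : E → E) (hc : ContinuousOn h (closedBall 0 1)) (hi : InjOn h (closedBall 0 1)) :
    ∃ δ > 0, ∀ y, ‖y‖ < δ → ∃ x ∈ closedBall (0 : E) 1, h x = h 0 + y := by
  have hm : ∀ (z : E × ℝ), ‖z‖ ≤ 1 → ((1 + z.2) / 2) • z.1 ∈ closedBall (0 : E) 1 ∧
      -(((1 - z.2) / 2) • z.1) ∈ closedBall (0 : E) 1 := by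
    intro z hz
    have h1 : ‖z.1‖ ≤ 1 := (norm_fst_le z).trans hz
    have h2 : |z.2| ≤ 1 := (norm_snd_le z).trans hz
    rw [abs_le] at h2
    simp only [mem_closedBall, dist_zero_right, norm_neg, norm_smul, Real.norm_eq_abs]
    constructor
    · rw [abs_of_nonneg (by linarith)]; nlinarith [norm_nonneg z.1]
    · rw [abs_of_nonneg (by linarith)]; nlinarith [norm_nonneg z.1]
  let G : E × ℝ → E := fun z => h (((1 + z.2) / 2) • z.1) - h (-(((1 - z.2) / 2) • z.1))
  have hG : ContinuousOn G {z | ‖z‖ = 1} := by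
    apply ContinuousOn.sub
    · exact hc.comp (by fun_prop) fun z hz => (hm z (le_of_eq hz)).1
    · exact hc.comp (by fun_prop) fun z hz => (hm z (le_of_eq hz)).2
  have hK : IsCompact ({z : E × ℝ | ‖z‖ = 1} ∩ {z | ‖z.1‖ = 1}) := by
    apply IsCompact.inter_right
    · simpa [sphere, dist_zero_right] using isCompact_sphere (0 : E × ℝ) 1
    · exact isClosed_eq (by fun_prop) continuous_const
  obtain ⟨δ, hδ, hb⟩ := hK.exists_forall_le' (f := fun z => ‖G z‖) (a := 0)
    (hG.mono inter_subset_left).norm (by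
      rintro z ⟨hz, hz1⟩
      rw [norm_pos_iff, sub_ne_zero]
      intro he
      have := hi (hm z (le_of_eq hz)).1 (hm z (le_of_eq hz)).2 he
      rw [← add_eq_zero_iff_eq_neg, ← add_smul, show (1 + z.2) / 2 + (1 - z.2) / 2 = 1 by ring,
        one_smul] at this
      rw [mem_ofPred_eq, this] at hz1
      simp at hz1)
  refine ⟨δ, hδ, fun y hy => ?_⟩
  obtain ⟨z, hz, h0⟩ := Pool.Agent.Lib.helper9.BorsukUlam.borsuk_ulam (E := E × ℝ) (F := E)
    (Or.inr (by simp)) (fun z => G z - z.2 • y) (hG.sub (by fun_prop)) (fun z _ => by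
      simp only [G, Prod.fst_neg, Prod.snd_neg, smul_neg, neg_neg, neg_smul, sub_neg_eq_add,
        ← sub_eq_add_neg]
      abel)
  have h2 : |z.2| ≤ 1 := (norm_snd_le z).trans hz.le
  have h1 : ‖z.1‖ ≤ 1 := (norm_fst_le z).trans hz.le
  rw [sub_eq_zero] at h0
  by_cases hz1 : ‖z.1‖ = 1
  · have := hb z ⟨hz, hz1⟩
    rw [h0, norm_smul, Real.norm_eq_abs] at this
    nlinarith [norm_nonneg y, abs_nonneg z.2]
  · have h3 : |z.2| = 1 := by
      rw [Prod.norm_def, Real.norm_eq_abs] at hz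
      rcases max_choice ‖z.1‖ |z.2| with h | h
      · exact absurd (h ▸ hz) hz1
      · exact h ▸ hz
    rcases (abs_eq (by norm_num)).1 h3 with h | h
    · refine ⟨z.1, by simpa using h1, ?_⟩
      simp only [G, h] at h0
      norm_num at h0
      rw [← h0]; abel
    · refine ⟨-z.1, by simpa using h1, ?_⟩
      simp only [G, h] at h0
      norm_num at h0
      rw [← neg_neg y, ← h0]; abel

/-- invariance of domain -/
theorem iod {U : Set E} (hU : IsOpen U) {f : E → E} (hc : ContinuousOn f U) (hi : InjOn f U) :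
    IsOpen (f '' U) := by
  rw [Metric.isOpen_iff]
  rintro _ ⟨a, ha, rfl⟩
  obtain ⟨r, hr, hs⟩ := nhds_basis_closedBall.mem_iff.1 (hU.mem_nhds ha)
  have hm : ∀ x ∈ closedBall (0 : E) 1, a + r • x ∈ U := fun x hx => hs (by
    simp only [mem_closedBall, dist_zero_right, dist_self_add_left, norm_smul,
      Real.norm_eq_abs, abs_of_pos hr] at hx ⊢
    nlinarith)
  obtain ⟨δ, hδ, h⟩ := core (fun x => f (a + r • x)) (hc.comp (by fun_prop) hm)
    (fun x hx y hy e => smul_right_injective E hr.ne' (add_left_cancel (hi (hm x hx) (hm y hy) e)))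
  refine ⟨δ, hδ, fun y hy => ?_⟩
  obtain ⟨x, hx, e⟩ := h (y - f a) (by rwa [mem_ball, dist_eq_norm] at hy)
  exact ⟨_, hm x hx, by simpa using e⟩

end Pool.Agent.Lib.helper11.IoD
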