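import Mathlib

namespace Pool.Agent.Lib.helper11.Det

open Matrix

variable {R : Type} [CommRing R]

def D (n : ℕ) (K : ℕ → ℕ → R) : R := (Matrix.of fun i j : Fin n => K i j).det

lemma D_congr {n : ℕ} {K L : ℕ → ℕ → R} (h : ∀ i < n, ∀ j < n, K i j = L i j) : D n K = D n L := by
  unfold D
  congr 1
  ext i j
  exact h i i.2 j j.2

@[simp] lemma D_zero (K : ℕ → ℕ → R) : D 0 K = 1 := by simp [D]

@[simp] lemma D_one (K : ℕ → ℕ → R) : D 1 K = K 0 0 := by simp [D]

lemma D_transpose (n : ℕ) (K : ℕ → ℕ → R) : D n K = D n (fun i j => K j i) := by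
  unfold D
  rw [← det_transpose]
  rfl

lemma D_diag (n : ℕ) (K : ℕ → ℕ → R) (h : ∀ i < n, ∀ j < n, i ≠ j → K i j = 0) :
    D n K = ∏ i ∈ Finset.range n, K i i := by
  unfold D
  rw [det_of_isLowerTriangular, ← Fin.prod_univ_eq_prod_range (fun i => K i i)]
  · rfl
  · intro i j hij
    exact h i i.2 j j.2 (by have : (i : ℕ) < j := hij; omega)

lemma D_op (n : ℕ) (K : ℕ → ℕ → R) (c : ℕ → R) (s : ℕ → ℕ)
    (hs : ∀ i < n, c i ≠ 0 → s i < n)
    (h : (∀ i < n, c i ≠ 0 → s i < i) ∨ (∀ i < n, c i ≠ 0 → i < s i)) :
    D n K = D n (fun i j => K i j + c i * K (s i) j) := by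
  classical
  let L : Matrix (Fin n) (Fin n) R := Matrix.of fun i k =>
    (if i = k then 1 else 0) + (if s i = k then c i else 0)
  have hd : ∀ i, L i i = 1 := by
    intro i
    simp only [L, of_apply, if_true]
    split_ifs with h1
    · by_cases h2 : c i = 0
      · simp [h2]
      · rcases h with h | h <;> have := h i i.2 h2 <;> omega
    · simp
  have hL : L.det = 1 := by
    rcases h with h | h
    · rw [det_of_isLowerTriangular]
      · simp [hd]
      · intro i j hij
        have hij' : (i : ℕ) < j := hij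
        simp only [L, of_apply]
        rw [if_neg (by intro e; subst e; omega), zero_add]
        split_ifs with h1
        · by_contra h2; have := h i i.2 h2; omega
        · rfl
    · rw [det_of_isUpperTriangular]
      · simp [hd]
      · intro i j hij
        have hij' : (j : ℕ) < i := hij
        simp only [L, of_apply]
        rw [if_neg (by intro e; subst e; omega), zero_add]
        split_ifs with h1
        · by_contra h2; have := h i i.2 h2; omega
        · rfl
  unfold D
  rw [← one_mul (det (Matrix.of fun i j : Fin n => K i j)), ← hL, ← det_mul]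
  congr 1
  ext i j
  simp only [L, Matrix.mul_apply, of_apply, add_mul, Finset.sum_add_distrib, ite_mul, one_mul,
    zero_mul, Finset.sum_ite_eq, Finset.mem_univ, if_true]
  congr 1
  by_cases h2 : c i = 0
  · simp [h2]
  · rw [Finset.sum_eq_single ⟨s i, hs i i.2 h2⟩]
    · simp
    · intro k _ hk
      rw [if_neg (fun e => hk (Fin.ext e.symm))]
    · simp

lemma D_scale (n : ℕ) (K : ℕ → ℕ → R) (v : ℕ → R) :
    D n (fun i j => v i * K i j) = (∏ i ∈ Finset.range n, v i) * D n K := by
  unfold D
  rw [← Fin.prod_univ_eq_prod_range]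
  exact det_mul_column (fun i : Fin n => v i) _

lemma D_perm (n : ℕ) (K : ℕ → ℕ → R) (σ : Equiv.Perm (Fin n)) (s : ℕ → ℕ)
    (hs : ∀ i, (σ i : ℕ) = s i) :
    D n (fun i j => K (s i) j) = ((Equiv.Perm.sign σ : ℤ) : R) * D n K := by
  unfold D
  rw [← det_permute]
  congr 1
  ext i j
  simp [hs]

lemma D_invol (n k : ℕ) (K : ℕ → ℕ → R) (s : ℕ → ℕ) (h1 : ∀ i < n, s i < n)
    (h2 : ∀ i < n, s (s i) = i) (h3 : ((Finset.range n).filter (fun i => s i = i)).card = k) :
    D n K = (-1) ^ ((n - k) / 2) * D n (fun i j => K (s i) j) := by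
  let f : Fin n → Fin n := fun i => ⟨s i, h1 i i.2⟩
  have hf : Function.Involutive f := fun i => Fin.ext (h2 i i.2)
  rw [D_perm n K hf.toPerm s (fun i => rfl), Equiv.Perm.sign_of_pow_two_eq_one
    (by ext i; simp [pow_two, hf i])]
  have : Fintype.card (Function.fixedPoints hf.toPerm) = k := by
    rw [← h3, Fintype.card_of_subtype (Finset.univ.filter (fun i : Fin n => s i = i))
      (by intro x; simp [Function.IsFixedPt, f, Fin.ext_iff])]
    rw [← Finset.card_map Fin.valEmbedding]
    congr 1
    ext x
    simp only [Finset.mem_map, Finset.mem_filter, Finset.mem_univ, true_and,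
      Fin.valEmbedding_apply, Finset.mem_range]
    constructor
    · rintro ⟨a, ha, rfl⟩; exact ⟨a.2, ha⟩
    · rintro ⟨a, ha⟩; exact ⟨⟨x, a⟩, ha, rfl⟩
  rw [this, ← mul_assoc]
  simp [← mul_pow]

/-- reversal of the rows in the segment `[p, p + q)` -/
lemma D_rev (n p q : ℕ) (h : p + q ≤ n) (K : ℕ → ℕ → R) :
    D n K = (-1) ^ (q / 2) *
      D n (fun i j => K (if p ≤ i ∧ i < p + q then 2 * p + q - 1 - i else i) j) := by
  rw [D_invol n (n - q + q % 2) K (fun i => if p ≤ i ∧ i < p + q then 2 * p + q - 1 - i else i)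
    (by intro i hi; split_ifs <;> omega) (by intro i hi; split_ifs <;> omega),
    show (n - (n - q + q % 2)) / 2 = q / 2 by omega]
  have : (Finset.range n).filter
      (fun i => (if p ≤ i ∧ i < p + q then 2 * p + q - 1 - i else i) = i) =
      (Finset.range p ∪ Finset.Ico (p + q) n) ∪
        Finset.Ico (p + q / 2) (p + q / 2 + q % 2) := by
    ext i
    simp only [Finset.mem_filter, Finset.mem_range, Finset.mem_union, Finset.mem_Ico]
    split_ifs <;> omega
  rw [this, Finset.card_union_of_disjoint, Finset.card_union_of_disjoint]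
  · simp only [Finset.card_range, Nat.card_Ico]; omega
  · rw [Finset.disjoint_left]; intro i; simp only [Finset.mem_range, Finset.mem_Ico]; omega
  · rw [Finset.disjoint_left]; intro i
    simp only [Finset.mem_range, Finset.mem_Ico, Finset.mem_union]; omega

lemma D_split {n p q : ℕ} (K : ℕ → ℕ → R) (e : Fin p ⊕ Fin q ≃ Fin n) (u v : ℕ → ℕ)
    (hu : ∀ a, (e (Sum.inl a) : ℕ) = u a) (hv : ∀ a, (e (Sum.inr a) : ℕ) = v a)
    (h0 : ∀ a < q, ∀ b < p, K (v a) (u b) = 0) :
    D n K = D p (fun a b => K (u a) (u b)) * D q (fun a b => K (v a) (v b)) := by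
  unfold D
  rw [← det_submatrix_equiv_self e, ← det_fromBlocks_zero₂₁ _
    (Matrix.of fun (a : Fin p) (b : Fin q) => K (u a) (v b))]
  congr 1
  ext i j
  rcases i with i | i <;> rcases j with j | j <;> simp [hu, hv, h0]

def seg (p q r : ℕ) : Fin (p + r) ⊕ Fin q ≃ Fin (p + q + r) where
  toFun := Sum.elim (fun a => ⟨if a < p then a else a + q, by split_ifs <;> omega⟩)
    (fun a => ⟨p + a, by omega⟩)
  invFun := fun i => if h : (i : ℕ) < p then Sum.inl ⟨i, by omega⟩
    else if h' : (i : ℕ) < p + q then Sum.inr ⟨i - p, by omega⟩ else Sum.inl ⟨i - q, by omega⟩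
  left_inv := by
    rintro (a | a)
    · by_cases h : (a : ℕ) < p
      · simp [h]
      · simp only [Sum.elim_inl, h, if_false]
        rw [dif_neg (by omega), dif_neg (by omega)]
        simp
    · simp
  right_inv := by
    intro i
    by_cases h : (i : ℕ) < p
    · simp [h]
    · by_cases h' : (i : ℕ) < p + q
      · simp only [h, h', dite_false, dite_true, Sum.elim_inr]; ext; simp only; omega
      · simp only [h, h', dite_false, Sum.elim_inl]; ext; simp only
        rw [if_neg (by omega)]; omega

/-- rows in the segment `[p, p + q)` have only the diagonal entry `c` -/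
lemma D_seg (p q r : ℕ) (K : ℕ → ℕ → R) (c : R)
    (h : ∀ a < q, ∀ j < p + q + r, K (p + a) j = if j = p + a then c else 0) :
    D (p + q + r) K = c ^ q *
      D (p + r) (fun a b => K (if a < p then a else a + q) (if b < p then b else b + q)) := by
  rw [D_split K (seg p q r) (fun a => if a < p then a else a + q) (fun a => p + a)
    (fun _ => rfl) (fun _ => rfl) (fun a ha b hb => by
      rw [h a ha _ (by split_ifs <;> omega), if_neg (by split_ifs <;> omega)]), mul_comm,
    D_diag q _ (fun a ha b hb hab => by rw [h a ha _ (by omega), if_neg (by omega)]),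
    Finset.prod_congr rfl (g := fun _ => c) (fun a ha => by
      rw [Finset.mem_range] at ha
      rw [h a ha _ (by omega), if_pos rfl])]
  simp

/-- columns in the segment `[p, p + q)` have only the diagonal entry `c` -/
lemma D_seg' (p q r : ℕ) (K : ℕ → ℕ → R) (c : R)
    (h : ∀ a < q, ∀ j < p + q + r, K j (p + a) = if j = p + a then c else 0) :
    D (p + q + r) K = c ^ q *
      D (p + r) (fun a b => K (if a < p then a else a + q) (if b < p then b else b + q)) := by
  rw [D_transpose, D_seg p q r _ c h, D_transpose]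

/-- Schur complement of a bordered matrix with constant border -/
lemma D_border (n : ℕ) (K : ℕ → ℕ → R) (a c ci : R) (hc : c * ci = 1)
    (h1 : ∀ i < n, K i n = a) (h2 : ∀ i < n, K n i = a) (h3 : K n n = c) :
    D (n + 1) K = c * D n (fun i j => K i j - a * a * ci) := by
  rw [D_op (n + 1) K (fun i => if i < n then -(a * ci) else 0) (fun _ => n) (fun _ _ _ => by omega)
    (Or.inr fun i _ h => by by_contra h'; exact h (if_neg h'))]
  have := D_seg' n 1 0 (fun i j => K i j + (if i < n then -(a * ci) else 0) * K n j) c (by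
    intro b hb j hj
    obtain rfl : b = 0 := by omega
    simp only [add_zero]
    by_cases h : j < n
    · rw [if_pos h, if_neg h.ne, h1 j h, h3]; linear_combination (-a) * hc
    · obtain rfl : j = n := by omega
      simp [h3])
  rw [add_zero] at this
  rw [this, pow_one]
  congr 1
  refine D_congr fun i hi j hj => ?_
  simp only [add_zero] at hi hj
  simp only [hi, hj, if_true, h2 j hj]
  ring

lemma map_D {S : Type} [CommRing S] (f : R →+* S) (n : ℕ) (K : ℕ → ℕ → R) :
    f (D n K) = D n (fun i j => f (K i j)) := by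
  unfold D
  rw [RingHom.map_det]
  rfl

end Pool.Agent.Lib.helper11.Det
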