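import Mathlib

namespace Pool.Agent.Lib.helper11.Auto

/-- an automaton reading the most significant digit first gives a finite kernel -/
lemma kernel_finite {Q Y : Type} (k : ℕ) (hk : 0 < k) (τ : ℕ → Q) (hfin : (Set.range τ).Finite)
    (δ : Q → ℕ → Q) (out : Q → Y) (a : ℕ → Y)
    (hτ : ∀ n b, b < k → τ (k * n + b) = δ (τ n) b) (ha : ∀ n, a n = out (τ n)) :
    {f : ℕ → Y | ∃ e r : ℕ, r < k ^ e ∧ f = fun n => a (k ^ e * n + r)}.Finite := by
  have h : ∀ e r, r < k ^ e → ∃ g : Q → Q, ∀ n, τ (k ^ e * n + r) = g (τ n) := by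
    intro e
    induction e with
    | zero =>
      intro r hr
      obtain rfl : r = 0 := by simpa using hr
      exact ⟨id, by simp⟩
    | succ e ih =>
      intro r hr
      obtain ⟨g, hg⟩ := ih (r / k) (by
        rw [Nat.div_lt_iff_lt_mul hk]; rwa [pow_succ] at hr)
      refine ⟨fun q => δ (g q) (r % k), fun n => ?_⟩
      have := Nat.div_add_mod r k
      rw [show k ^ (e + 1) * n + r = k * (k ^ e * n + r / k) + r % k by
        rw [pow_succ, mul_add, mul_comm (k ^ e) k, mul_assoc]; omega,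
        hτ _ _ (Nat.mod_lt _ hk), hg]
  have := hfin.to_subtype
  refine (Set.finite_range (fun g : Set.range τ → Set.range τ =>
    fun n => out (g ⟨τ n, n, rfl⟩))).subset ?_
  rintro f ⟨e, r, hr, rfl⟩
  obtain ⟨g, hg⟩ := h e r hr
  refine ⟨fun q => ⟨g q, ?_⟩, funext fun n => by simp only; rw [ha, hg]⟩
  obtain ⟨q, n, rfl⟩ := q
  exact ⟨_, hg n⟩

/-- pumping: a finite kernel gives an affine self-map preserving the values -/
lemma pump {Y : Type} (k : ℕ) (hk : 2 ≤ k) (a : ℕ → Y)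
    (h : {f : ℕ → Y | ∃ e r : ℕ, r < k ^ e ∧ f = fun n => a (k ^ e * n + r)}.Finite) :
    ∃ L : ℕ, ∀ n, L ≤ n → ∃ (K : ℕ) (β : ℤ) (s : ℕ → ℕ), 2 ≤ K ∧ s 0 = n ∧ StrictMono s ∧
      (∀ t, (s (t + 1) : ℤ) = K * s t + β) ∧ ∀ t, a (s t) = a n := by
  classical
  refine ⟨k ^ h.toFinset.card, fun n hn => ?_⟩
  have hpos : ∀ e, 0 < k ^ e := fun e => by positivity
  obtain ⟨e1, h1, e2, h2, hne, heq⟩ := Finset.exists_ne_map_eq_of_card_lt_of_maps_to
    (s := Finset.range (h.toFinset.card + 1)) (t := h.toFinset) (by simp)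
    (f := fun e => fun m => a (k ^ e * m + n % k ^ e))
    (fun e _ => by simpa using ⟨e, n % k ^ e, Nat.mod_lt _ (hpos e), rfl⟩)
  wlog hlt : e1 < e2 generalizing e1 e2
  · exact this e2 h2 e1 h1 hne.symm heq.symm (by omega)
  obtain ⟨d, rfl⟩ := Nat.exists_eq_add_of_lt hlt
  set K := k ^ (d + 1) with hK
  have hK2 : 2 ≤ K := hk.trans (by rw [hK, pow_succ]; exact Nat.le_mul_of_pos_left _ (hpos d))
  set c := n / k ^ e1 % K with hc
  have e3 : n % k ^ (e1 + d + 1) = k ^ e1 * c + n % k ^ e1 := by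
    rw [add_assoc, pow_add, Nat.mod_mul, add_comm]
  have hstep : ∀ m, a (k ^ e1 * (K * m + c) + n % k ^ e1) = a (k ^ e1 * m + n % k ^ e1) := by
    intro m
    have := congrFun heq m
    rw [this, e3, add_assoc e1, pow_add]
    congr 1; ring
  let m : ℕ → ℕ := fun t => Nat.rec (n / k ^ e1) (fun _ x => K * x + c) t
  have hm0 : 0 < n / k ^ e1 := by
    refine Nat.div_pos (le_trans (Nat.pow_le_pow_right (by omega) ?_) hn) (hpos _)
    have := Finset.mem_range.1 h1
    omega
  have hmpos : ∀ t, 0 < m t := by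
    intro t
    induction t with
    | zero => exact hm0
    | succ t ih => show 0 < K * m t + c; positivity
  refine ⟨K, k ^ e1 * c + (n % k ^ e1 : ℕ) - K * (n % k ^ e1 : ℕ),
    fun t => k ^ e1 * m t + n % k ^ e1, hK2, Nat.div_add_mod _ _, ?_, ?_, ?_⟩
  · refine strictMono_nat_of_lt_succ fun t => ?_
    have : m t < m (t + 1) := by
      show m t < K * m t + c
      nlinarith [hmpos t]
    exact Nat.add_lt_add_right (Nat.mul_lt_mul_of_pos_left this (hpos _)) _
  · intro t
    show ((k ^ e1 * (K * m t + c) + n % k ^ e1 : ℕ) : ℤ) = _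
    push_cast
    ring
  · intro t
    induction t with
    | zero => exact congrArg a (Nat.div_add_mod _ _)
    | succ t ih => exact (hstep _).trans ih

/-- linear plus automatic is regular -/
lemma fg_of_lin (k : ℕ) (u e : ℕ → ℤ) (c : ℤ) (hu : ∀ n, u n = c * n + e n)
    (h : {f : ℕ → ℤ | ∃ j r : ℕ, r < k ^ j ∧ f = fun n => e (k ^ j * n + r)}.Finite) :
    (Submodule.span ℤ {f : ℕ → ℤ | ∃ j r : ℕ, r < k ^ j ∧ f = fun n => u (k ^ j * n + r)}).FG := by
  have hf := (h.insert (fun n : ℕ => (n : ℤ))).insert (fun _ => 1)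
  refine (Submodule.fg_span hf).of_le (Submodule.span_le.2 ?_)
  rintro f ⟨j, r, hr, rfl⟩
  have : (fun n => u (k ^ j * n + r)) = (c * r) • (fun _ : ℕ => (1 : ℤ)) +
      (c * k ^ j) • (fun n : ℕ => (n : ℤ)) + fun n => e (k ^ j * n + r) := by
    funext n
    simp only [hu, Pi.add_apply, Pi.smul_apply, smul_eq_mul]
    push_cast
    ring
  rw [this]
  refine add_mem (add_mem (Submodule.smul_mem _ _ (Submodule.subset_span (by simp)))
    (Submodule.smul_mem _ _ (Submodule.subset_span (by simp)))) (Submodule.subset_span ?_)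
  exact Or.inr (Or.inr ⟨j, r, hr, rfl⟩)

end Pool.Agent.Lib.helper11.Auto
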