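import Mathlib

set_option autoImplicit false

namespace Pool.Agent.Lib.helper11.Cyc

open Polynomial Finset

theorem transfer {n : ℕ} (hn : 0 < n) {θ : ℂ} (hθ : IsPrimitiveRoot θ n) {K : Type} [Field K]
    {g : K} (hg : IsPrimitiveRoot g n) (E : ℤ[X]) (h : aeval θ E = 0) : aeval g E = 0 := by
  have h1 : minpoly ℤ θ ∣ E := minpoly.isIntegrallyClosed_dvd (hθ.isIntegral hn) h
  rw [← cyclotomic_eq_minpoly hθ hn] at h1
  obtain ⟨W, rfl⟩ := h1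
  have h2 : aeval g (cyclotomic n ℤ) = 0 := by
    rw [aeval_def, ← eval_map, map_cyclotomic]
    exact hg.isRoot_cyclotomic hn
  rw [map_mul, h2, zero_mul]

theorem conj_pow {n : ℕ} (hn : 0 < n) {θ : ℂ} (hθ : IsPrimitiveRoot θ n) (m : ℕ) :
    (starRingEnd ℂ) (θ ^ m) = θ ^ ((n - 1) * m) := by
  have h1 : ‖θ‖ = 1 := hθ.norm'_eq_one hn.ne'
  have h2 : θ * (starRingEnd ℂ) θ = 1 := by
    rw [Complex.mul_conj, Complex.normSq_eq_norm_sq, h1]; simp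
  have h3 : θ * θ ^ (n - 1) = 1 := by
    rw [← pow_succ', Nat.sub_add_cancel hn, hθ.pow_eq_one]
  have h0 : θ ≠ 0 := hθ.ne_zero hn.ne'
  rw [map_pow, pow_mul, mul_left_cancel₀ h0 (h2.trans h3.symm)]

theorem normsq_prod {n : ℕ} (hn : 0 < n) {θ : ℂ} (hθ : IsPrimitiveRoot θ n) (s : Finset ℕ)
    (u : ℕ) (v : ℕ → ℕ) :
    (((‖∏ k ∈ s, (θ ^ u - θ ^ v k)‖ ^ 2 : ℝ)) : ℂ) = aeval θ
      (∏ k ∈ s, ((X ^ u - X ^ v k) * (X ^ ((n - 1) * u) - X ^ ((n - 1) * v k)) : ℤ[X])) := by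
  rw [← Complex.normSq_eq_norm_sq, ← Complex.mul_conj, map_prod, map_prod, ← prod_mul_distrib]
  refine prod_congr rfl fun k _ => ?_
  simp only [map_mul, map_sub, conj_pow hn hθ, map_pow (aeval θ), aeval_X]

theorem two_norms {n : ℕ} (hn : 0 < n) {θ : ℂ} (hθ : IsPrimitiveRoot θ n) {K : Type} [Field K]
    {g : K} (hg : IsPrimitiveRoot g n) (s : Finset ℕ) (u w : ℕ) (v : ℕ → ℕ) (N : ℕ)
    (h : ‖∏ k ∈ s, (θ ^ u - θ ^ v k)‖ ^ 2 + ‖∏ k ∈ s, (θ ^ w - θ ^ v k)‖ ^ 2 = N) :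
    ∏ k ∈ s, ((g ^ u - g ^ v k) * (g ^ ((n - 1) * u) - g ^ ((n - 1) * v k))) +
      ∏ k ∈ s, ((g ^ w - g ^ v k) * (g ^ ((n - 1) * w) - g ^ ((n - 1) * v k))) = N := by
  have h1 := congrArg (fun x : ℝ => (x : ℂ)) h
  simp only [Complex.ofReal_add, normsq_prod hn hθ, Complex.ofReal_natCast] at h1
  have h2 := transfer hn hθ hg
    (∏ k ∈ s, ((X ^ u - X ^ v k) * (X ^ ((n - 1) * u) - X ^ ((n - 1) * v k)) : ℤ[X]) +
     ∏ k ∈ s, ((X ^ w - X ^ v k) * (X ^ ((n - 1) * w) - X ^ ((n - 1) * v k)) : ℤ[X]) - (N : ℤ[X]))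
    (by rw [map_sub, map_add, h1, map_natCast, sub_self])
  simp only [map_sub, map_add, map_prod, map_mul, map_pow, aeval_X, map_natCast] at h2
  exact sub_eq_zero.1 h2

theorem two_norms_mod {n : ℕ} (hn : 0 < n) {θ : ℂ} (hθ : IsPrimitiveRoot θ n) (q : ℕ)
    [Fact q.Prime] (g : ℤ) (hg : IsPrimitiveRoot (g : ZMod q) n) (s : Finset ℕ) (u w : ℕ)
    (v : ℕ → ℕ) (N : ℕ)
    (h : ‖∏ k ∈ s, (θ ^ u - θ ^ v k)‖ ^ 2 + ‖∏ k ∈ s, (θ ^ w - θ ^ v k)‖ ^ 2 = N) :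
    (q : ℤ) ∣ ∏ k ∈ s, ((g ^ (u % n) - g ^ (v k % n)) *
        (g ^ ((n - 1) * u % n) - g ^ ((n - 1) * v k % n))) +
      ∏ k ∈ s, ((g ^ (w % n) - g ^ (v k % n)) *
        (g ^ ((n - 1) * w % n) - g ^ ((n - 1) * v k % n))) - N := by
  have h1 := two_norms hn hθ hg s u w v N h
  rw [← ZMod.intCast_zmod_eq_zero_iff_dvd]
  have e : ∀ m, (g : ZMod q) ^ (m % n) = (g : ZMod q) ^ m := fun m => by
    conv_rhs => rw [← Nat.mod_add_div m n, pow_add, pow_mul, hg.pow_eq_one, one_pow, mul_one]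
  push_cast
  simp only [e]
  rw [h1, sub_self]

theorem prim_of (q : ℕ) [Fact q.Prime] (g n : ℕ) (hn : 0 < n) (h1 : g ^ n % q = 1 % q)
    (h2 : ∀ f ∈ n.primeFactors, g ^ (n / f) % q ≠ 1 % q) :
    IsPrimitiveRoot (((g : ℕ) : ℤ) : ZMod q) n := by
  have e : ∀ m, (((g : ℕ) : ℤ) : ZMod q) ^ m = 1 ↔ g ^ m % q = 1 % q := fun m => by
    rw [Int.cast_natCast, ← Nat.cast_pow, ← Nat.cast_one (R := ZMod q),
      ZMod.natCast_eq_natCast_iff']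
  rw [IsPrimitiveRoot.iff_orderOf]
  refine orderOf_eq_of_pow_and_pow_div_prime hn ((e n).2 h1) fun f hf hd h => ?_
  exact h2 f (Nat.mem_primeFactors.2 ⟨hf, hd, hn.ne'⟩) ((e _).1 h)

end Pool.Agent.Lib.helper11.Cyc
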