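import Mathlib

namespace Pool.Agent.Lib.helper11.Misere

abbrev V := ℕ × ℕ × ℕ × ℕ × ℕ

def Move (L : List (V × List V)) (v u : V) : Prop :=
  ∃ p ∈ L, ∃ o ∈ p.2, ∃ w, v = w + p.1 ∧ u = w + o

def Un (e : V) : Prop :=
  e = (1, 0, 0, 0, 0) ∨ e = (0, 1, 0, 0, 0) ∨ e = (0, 0, 1, 0, 0) ∨ e = (0, 0, 0, 1, 0) ∨
    e = (0, 0, 0, 0, 1)

lemma un_split {e : V} (he : Un e) {v1 v2 w : V} (h : v1 + v2 = w + e) :
    (∃ w1, v1 = w1 + e ∧ w = w1 + v2) ∨ ∃ w2, v2 = w2 + e ∧ w = v1 + w2 := by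
  obtain ⟨a1, b1, c1, d1, n1⟩ := v1
  obtain ⟨a2, b2, c2, d2, n2⟩ := v2
  obtain ⟨a, b, c, d, n⟩ := w
  by_cases hc : e.1 ≤ a1 ∧ e.2.1 ≤ b1 ∧ e.2.2.1 ≤ c1 ∧ e.2.2.2.1 ≤ d1 ∧ e.2.2.2.2 ≤ n1
  · left
    refine ⟨(a1, b1, c1, d1, n1) - e, ?_⟩
    rcases he with rfl | rfl | rfl | rfl | rfl <;>
      simp only [Prod.mk_add_mk, Prod.mk_sub_mk, Prod.mk.injEq] at h hc ⊢ <;> omega
  · right
    refine ⟨(a2, b2, c2, d2, n2) - e, ?_⟩
    rcases he with rfl | rfl | rfl | rfl | rfl <;>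
      simp only [Prod.mk_add_mk, Prod.mk_sub_mk, Prod.mk.injEq] at h hc ⊢ <;> omega

lemma move_add {L : List (V × List V)} (hL : ∀ p ∈ L, Un p.1) (v1 v2 u : V) :
    Move L (v1 + v2) u ↔ (∃ u1, Move L v1 u1 ∧ u = u1 + v2) ∨ ∃ u2, Move L v2 u2 ∧ u = v1 + u2 := by
  constructor
  · rintro ⟨p, hp, o, ho, w, h1, h2⟩
    rcases un_split (hL p hp) h1 with ⟨w1, h3, h4⟩ | ⟨w2, h3, h4⟩
    · exact Or.inl ⟨w1 + o, ⟨p, hp, o, ho, w1, h3, rfl⟩, by rw [h2, h4]; abel⟩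
    · exact Or.inr ⟨w2 + o, ⟨p, hp, o, ho, w2, h3, rfl⟩, by rw [h2, h4]; abel⟩
  · rintro (⟨u1, ⟨p, hp, o, ho, w, h1, h2⟩, h3⟩ | ⟨u1, ⟨p, hp, o, ho, w, h1, h2⟩, h3⟩)
    · exact ⟨p, hp, o, ho, w + v2, by rw [h1]; abel, by rw [h3, h2]; abel⟩
    · exact ⟨p, hp, o, ho, v1 + w, by rw [h1]; abel, by rw [h3, h2]; abel⟩

def le (e v : V) : Bool :=
  decide (e.1 ≤ v.1) && decide (e.2.1 ≤ v.2.1) && decide (e.2.2.1 ≤ v.2.2.1) &&
    decide (e.2.2.2.1 ≤ v.2.2.2.1) && decide (e.2.2.2.2 ≤ v.2.2.2.2)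

def mv (L : List (V × List V)) (v : V) : List V :=
  L.flatMap fun p => if le p.1 v then p.2.map fun o => v - p.1 + o else []

lemma le_iff (e v : V) : le e v = true ↔ ∃ w, v = w + e := by
  obtain ⟨a1, b1, c1, d1, n1⟩ := e
  obtain ⟨a2, b2, c2, d2, n2⟩ := v
  simp only [le, Bool.and_eq_true, decide_eq_true_eq]
  constructor
  · intro h
    refine ⟨(a2 - a1, b2 - b1, c2 - c1, d2 - d1, n2 - n1), ?_⟩
    simp only [Prod.mk_add_mk, Prod.mk.injEq]
    omega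
  · rintro ⟨⟨a, b, c, d, n⟩, h⟩
    simp only [Prod.mk_add_mk, Prod.mk.injEq] at h
    omega

lemma sub_can (w e : V) : w + e - e = w := by
  obtain ⟨a1, b1, c1, d1, n1⟩ := e
  obtain ⟨a2, b2, c2, d2, n2⟩ := w
  simp only [Prod.mk_add_mk, Prod.mk_sub_mk, Prod.mk.injEq]
  omega

lemma mem_mv (L : List (V × List V)) (v u : V) : u ∈ mv L v ↔ Move L v u := by
  unfold mv Move
  simp only [List.mem_flatMap]
  constructor
  · rintro ⟨p, hp, h⟩
    split_ifs at h with hl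
    · obtain ⟨o, ho, rfl⟩ := List.mem_map.1 h
      obtain ⟨w, rfl⟩ := (le_iff _ _).1 hl
      exact ⟨p, hp, o, ho, w, rfl, by rw [sub_can]⟩
    · simp at h
  · rintro ⟨p, hp, o, ho, w, rfl, rfl⟩
    refine ⟨p, hp, ?_⟩
    rw [if_pos ((le_iff _ _).2 ⟨w, rfl⟩), sub_can]
    exact List.mem_map_of_mem ho

def mu (v : V) : ℕ := v.1 + 2 * v.2.1 + 10 * v.2.2.1 + 100 * v.2.2.2.1 + 1000 * v.2.2.2.2

lemma mu_add (v w : V) : mu (v + w) = mu v + mu w := by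
  simp only [mu, Prod.fst_add, Prod.snd_add]
  ring

def rd (M p c : ℕ) : ℕ := if c < M then c else M + (c - M) % p

lemma rd1 (M p c k : ℕ) : rd M p (rd (M + 1) p c - 1 + k) = rd M p (c - 1 + k) := by
  by_cases h : c < M + 1
  · rw [show rd (M + 1) p c = c by simp [rd, h]]
  · rw [show rd (M + 1) p c = M + 1 + (c - (M + 1)) % p by simp [rd, h]]
    unfold rd
    rw [if_neg (by omega), if_neg (by omega),
      show M + 1 + (c - (M + 1)) % p - 1 + k - M = (c - (M + 1)) % p + k by omega,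
      show c - 1 + k - M = c - (M + 1) + k by omega, Nat.mod_add_mod]

lemma rd0 (M p c k : ℕ) : rd M p (rd (M + 1) p c - 0 + k) = rd M p (c - 0 + k) := by
  by_cases h : c < M + 1
  · rw [show rd (M + 1) p c = c by simp [rd, h]]
  · rw [show rd (M + 1) p c = M + 1 + (c - (M + 1)) % p by simp [rd, h]]
    unfold rd
    rw [if_neg (by omega), if_neg (by omega),
      show M + 1 + (c - (M + 1)) % p - 0 + k - M = (c - (M + 1)) % p + (k + 1) by omega,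
      show c - 0 + k - M = c - (M + 1) + (k + 1) by omega, Nat.mod_add_mod]

lemma rd_pos (M p c : ℕ) : 1 ≤ rd (M + 1) p c ↔ 1 ≤ c := by
  unfold rd
  split_ifs <;> omega

lemma rd_lt (M p c : ℕ) (hp : 0 < p) : rd M p c < M + p := by
  unfold rd
  have := Nat.mod_lt (c - M) hp
  split_ifs <;> omega

def Qb (T r p : ℕ) (v : V) : Bool :=
  T.testBit (rd 0 2 v.1 + 2 * (rd 3 2 v.2.1 + 5 * (rd 3 2 v.2.2.1 + 5 * (rd 3 2 v.2.2.2.1 +
    5 * rd r p v.2.2.2.2))))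

def rho (r p : ℕ) (v : V) : V :=
  (rd 1 2 v.1, rd 4 2 v.2.1, rd 4 2 v.2.2.1, rd 4 2 v.2.2.2.1, rd (r + 1) p v.2.2.2.2)

def rhs (L : List (V × List V)) (T r p : ℕ) (v : V) : Bool :=
  (L.any fun g => le g.1 v && !g.2.isEmpty) &&
    L.all fun g => !le g.1 v || g.2.all fun o => !Qb T r p (v - g.1 + o)

def rf (M p c : ℕ) : ℕ := cond (Nat.ble M c) (Nat.add M (Nat.mod (Nat.sub c M) p)) c

lemma rf_eq (M p c : ℕ) : rf M p c = rd M p c := by
  unfold rf rd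
  by_cases h : c < M
  · rw [if_pos h, show Nat.ble M c = false by
      rw [← Bool.not_eq_true, Nat.ble_eq]; omega]
    rfl
  · rw [if_neg h, show Nat.ble M c = true by rw [Nat.ble_eq]; omega]
    rfl

def Qf (T r p a b c d n : ℕ) : Bool :=
  Nat.beq (Nat.mod (Nat.shiftRight T (Nat.add (rf 0 2 a) (Nat.mul 2 (Nat.add (rf 3 2 b) (Nat.mul 5
    (Nat.add (rf 3 2 c) (Nat.mul 5 (Nat.add (rf 3 2 d) (Nat.mul 5 (rf r p n)))))))))) 2) 1

lemma Qf_eq (T r p a b c d n : ℕ) : Qf T r p a b c d n = Qb T r p (a, b, c, d, n) := by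
  unfold Qf Qb
  simp only [rf_eq, Nat.testBit_eq_decide_div_mod_eq, Nat.add_eq, Nat.mul_eq,
    Nat.shiftRight_eq, Nat.shiftRight_eq_div_pow]
  rw [Bool.eq_iff_iff, Nat.beq_eq, decide_eq_true_eq]
  rfl

def lf (a b c d n : ℕ) : V → Bool
  | (a', b', c', d', n') =>
    Nat.ble a' a && Nat.ble b' b && Nat.ble c' c && Nat.ble d' d && Nat.ble n' n

def Qg (T r p a b c d n : ℕ) : V → V → Bool
  | (a', b', c', d', n'), (a2, b2, c2, d2, n2) =>
    Qf T r p (Nat.add (Nat.sub a a') a2) (Nat.add (Nat.sub b b') b2) (Nat.add (Nat.sub c c') c2)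
      (Nat.add (Nat.sub d d') d2) (Nat.add (Nat.sub n n') n2)

def rhf (L : List (V × List V)) (T r p a b c d n : ℕ) : Bool :=
  (L.any fun g => lf a b c d n g.1 && !g.2.isEmpty) &&
    L.all fun g => !lf a b c d n g.1 || g.2.all fun o => !Qg T r p a b c d n g.1 o

lemma rhf_eq (L : List (V × List V)) (T r p a b c d n : ℕ) :
    rhf L T r p a b c d n = rhs L T r p (a, b, c, d, n) := by
  have h1 : ∀ e, lf a b c d n e = le e (a, b, c, d, n) := by
    rintro ⟨a', b', c', d', n'⟩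
    rw [Bool.eq_iff_iff]
    simp [lf, le]
  have h2 : ∀ e o, Qg T r p a b c d n e o = Qb T r p ((a, b, c, d, n) - e + o) := by
    rintro ⟨a', b', c', d', n'⟩ ⟨a2, b2, c2, d2, n2⟩
    rw [Qg, Qf_eq]
    rfl
  simp only [rhf, rhs, h1, h2]

def chk1 (L : List (V × List V)) (T r p n : ℕ) : Bool :=
  [0, 1, 2].all fun a => [0, 1, 2, 3, 4, 5].all fun b => [0, 1, 2, 3, 4, 5].all fun c =>
    [0, 1, 2, 3, 4, 5].all fun d => Qf T r p a b c d n == rhf L T r p a b c d n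

def chk (L : List (V × List V)) (T r p : ℕ) : Prop := ∀ n < r + 1 + p, chk1 L T r p n = true

lemma le_rho {e : V} (he : Un e) (r p : ℕ) (v : V) : le e (rho r p v) = le e v := by
  have h1 := rd_pos 0 2 v.1
  have h2 := rd_pos 3 2 v.2.1
  have h3 := rd_pos 3 2 v.2.2.1
  have h4 := rd_pos 3 2 v.2.2.2.1
  have h5 := rd_pos r p v.2.2.2.2
  rcases he with rfl | rfl | rfl | rfl | rfl <;> simp [le, rho, *]

lemma Q_rho {e : V} (he : Un e ∨ e = 0) (T r p : ℕ) (v o : V) :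
    Qb T r p (rho r p v - e + o) = Qb T r p (v - e + o) := by
  have a0 := rd0 0 2 v.1 o.1
  have a1 := rd1 0 2 v.1 o.1
  have b0 := rd0 3 2 v.2.1 o.2.1
  have b1 := rd1 3 2 v.2.1 o.2.1
  have c0 := rd0 3 2 v.2.2.1 o.2.2.1
  have c1 := rd1 3 2 v.2.2.1 o.2.2.1
  have d0 := rd0 3 2 v.2.2.2.1 o.2.2.2.1
  have d1 := rd1 3 2 v.2.2.2.1 o.2.2.2.1
  have n0 := rd0 r p v.2.2.2.2 o.2.2.2.2
  have n1 := rd1 r p v.2.2.2.2 o.2.2.2.2
  rcases he with (rfl | rfl | rfl | rfl | rfl) | rfl <;>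
    simp only [Qb, rho, Prod.fst_add, Prod.snd_add, Prod.fst_sub, Prod.snd_sub, Prod.fst_zero,
      Prod.snd_zero, Nat.reduceAdd] at * <;> simp only [*]

lemma Q_spec {L : List (V × List V)} (hL : ∀ g ∈ L, Un g.1) {T r p : ℕ} (hp : 0 < p)
    (hc : chk L T r p) (v : V) :
    Qb T r p v = true ↔ (∃ u, Move L v u) ∧ ∀ u, Move L v u → ¬ Qb T r p u = true := by
  have h1 : Qb T r p (rho r p v) = rhs L T r p (rho r p v) := by
    have h := hc _ (rd_lt (r + 1) p v.2.2.2.2 hp)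
    simp only [chk1, List.all_eq_true, beq_iff_eq, Qf_eq, rhf_eq] at h
    have m3 : ∀ k, k < 1 + 2 → k ∈ [0, 1, 2] := by decide
    have m6 : ∀ k, k < 4 + 2 → k ∈ [0, 1, 2, 3, 4, 5] := by decide
    exact h _ (m3 _ (rd_lt 1 2 _ (by norm_num))) _ (m6 _ (rd_lt 4 2 _ (by norm_num)))
      _ (m6 _ (rd_lt 4 2 _ (by norm_num))) _ (m6 _ (rd_lt 4 2 _ (by norm_num)))
  have h2 : Qb T r p (rho r p v) = Qb T r p v := by
    have := Q_rho (Or.inr rfl) T r p v 0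
    have e : ∀ w : V, w - 0 + 0 = w := fun w => by
      have := sub_can w 0
      rw [add_zero] at this
      rw [add_zero, this]
    rwa [e, e] at this
  rw [← h2, h1]
  simp only [rhs, Bool.and_eq_true, List.any_eq_true, List.all_eq_true, Bool.or_eq_true,
    Bool.not_eq_true', List.isEmpty_eq_false_iff]
  constructor
  · rintro ⟨⟨g, hg, h3, h4⟩, h5⟩
    rw [le_rho (hL g hg), le_iff] at h3
    obtain ⟨w, hw⟩ := h3
    obtain ⟨o, ho⟩ := List.exists_mem_of_ne_nil _ h4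
    refine ⟨⟨w + o, g, hg, o, ho, w, hw, rfl⟩, ?_⟩
    rintro u ⟨g', hg', o', ho', w', hw', rfl⟩
    rcases h5 g' hg' with h6 | h6
    · rw [le_rho (hL g' hg'), (le_iff _ _).2 ⟨w', hw'⟩] at h6
      exact absurd h6 (by simp)
    · have := h6 o' ho'
      rw [Q_rho (Or.inl (hL g' hg')), hw', sub_can] at this
      simp [this]
  · rintro ⟨⟨u, g, hg, o, ho, w, hw, -⟩, h5⟩
    refine ⟨⟨g, hg, ?_, List.ne_nil_of_mem ho⟩, fun g' hg' => ?_⟩
    · rw [le_rho (hL g hg), le_iff]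
      exact ⟨w, hw⟩
    · rw [le_rho (hL g' hg')]
      by_cases h6 : le g'.1 v = true
      · right
        intro o' ho'
        obtain ⟨w', hw'⟩ := (le_iff _ _).1 h6
        rw [Q_rho (Or.inl (hL g' hg'))]
        have := h5 (w' + o') ⟨g', hg', o', ho', w', hw', rfl⟩
        rw [hw', sub_can]
        simpa using this
      · left
        simpa using h6

lemma rd_add (M p c k : ℕ) : rd M p (rd (M + 1) p c + k) = rd M p (c + k) := by
  simpa using rd0 M p c k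

lemma Q_rho_add (T r p : ℕ) (v o : V) : Qb T r p (rho r p v + o) = Qb T r p (v + o) := by
  have := Q_rho (Or.inr rfl) T r p v o
  have e : ∀ w : V, w - 0 = w := fun w => by
    have := sub_can w 0
    rwa [add_zero] at this
  rwa [e, e] at this

lemma wf {L : List (V × List V)} (hm : ∀ p ∈ L, ∀ o ∈ p.2, mu o < mu p.1) :
    WellFounded fun u v : V => Move L v u := by
  refine Subrelation.wf ?_ (measure mu).wf
  rintro u v ⟨p, hp, o, ho, w, rfl, rfl⟩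
  have := hm p hp o ho
  show mu (w + o) < mu (w + p.1)
  rw [mu_add, mu_add]
  omega

lemma fin (L : List (V × List V)) (v : V) : {u | Move L v u}.Finite := by
  refine (List.finite_toSet (mv L v)).subset fun u hu => ?_
  exact (mem_mv L v u).2 hu

def base : List (V × List V) :=
  [((1, 0, 0, 0, 0), [(0, 0, 0, 0, 0)]), ((0, 1, 0, 0, 0), [(0, 0, 0, 0, 0), (1, 0, 0, 0, 0)])]

end Pool.Agent.Lib.helper11.Misere
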