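import Mathlib

open Finset

namespace Pool.Agent.Lib.helper11.SmallSol

def Sat {n : ℕ} (C : Set ((Fin n → ℤ) × Bool)) (z : Fin n → ℤ) : Prop :=
  ∀ c ∈ C, 0 ≤ ∑ i, c.1 i * z i ∧ (c.2 = true → 0 < ∑ i, c.1 i * z i)

theorem prim_pow : Primrec₂ ((· ^ ·) : ℕ → ℕ → ℕ) := Primrec₂.unpaired'.1 Nat.Primrec.pow

theorem small (n : ℕ) : ∃ f : ℕ → ℕ, Primrec f ∧ ∀ (M : ℕ) (C : Set ((Fin n → ℤ) × Bool)),
    (∀ c ∈ C, ∀ i, |c.1 i| ≤ M) → ∀ z, Sat C z → ∃ z, Sat C z ∧ ∀ i, |z i| ≤ f M := by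
  induction n with
  | zero => exact ⟨fun _ => 0, Primrec.const 0, fun M C _ z hz => ⟨z, hz, fun i => i.elim0⟩⟩
  | succ n ih =>
    obtain ⟨f, hf, H⟩ := ih
    have hf2 : Primrec fun M : ℕ => f (2 * (M * M) + M) :=
      hf.comp (Primrec.nat_add.comp (Primrec.nat_mul.comp (Primrec.const 2)
        (Primrec.nat_mul.comp Primrec.id Primrec.id)) Primrec.id)
    refine ⟨fun M => 2 * M ^ M * (n * M * f (2 * (M * M) + M) + f (2 * (M * M) + M)) + 1,
      Primrec.succ.comp (Primrec.nat_mul.comp (Primrec.nat_mul.comp (Primrec.const 2)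
        (prim_pow.comp Primrec.id Primrec.id)) (Primrec.nat_add.comp (Primrec.nat_mul.comp
        (Primrec.nat_mul.comp (Primrec.const n) Primrec.id) hf2) hf2)), ?_⟩
    intro M C hC z hz
    let C' : Set ((Fin n → ℤ) × Bool) :=
      {c | ∃ p ∈ C, p.1 0 = 0 ∧ c = (fun i => p.1 i.succ, p.2)} ∪
      {c | ∃ p ∈ C, ∃ q ∈ C, 0 < p.1 0 ∧ q.1 0 < 0 ∧
        c = (fun i => -q.1 0 * p.1 i.succ + p.1 0 * q.1 i.succ, p.2 || q.2)}
    have hsum : ∀ (p q : Fin (n + 1) → ℤ) (w : Fin n → ℤ),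
        ∑ i, (-q 0 * p i.succ + p 0 * q i.succ) * w i
          = -q 0 * ∑ i, p i.succ * w i + p 0 * ∑ i, q i.succ * w i := by
      intro p q w
      rw [mul_sum, mul_sum, ← sum_add_distrib]
      exact sum_congr rfl fun i _ => by ring
    have hM0 : (0 : ℤ) ≤ M := Nat.cast_nonneg _
    obtain ⟨w, hw, hwb⟩ := H (2 * (M * M) + M) C' (by
      rintro c (⟨p, hp, -, rfl⟩ | ⟨p, hp, q, hq, -, -, rfl⟩) i
      · have := hC p hp i.succ
        push_cast
        nlinarith
      · refine (abs_add_le _ _).trans ?_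
        rw [abs_mul, abs_mul, abs_neg]
        have h1 := mul_le_mul (hC q hq 0) (hC p hp i.succ) (abs_nonneg _) hM0
        have h2 := mul_le_mul (hC p hp 0) (hC q hq i.succ) (abs_nonneg _) hM0
        push_cast
        linarith) (fun i => z i.succ) (by
      rintro c (⟨p, hp, h0, rfl⟩ | ⟨p, hp, q, hq, h1, h2, rfl⟩)
      · have := hz p hp
        rwa [Fin.sum_univ_succ, h0, zero_mul, zero_add] at this
      · have a1 := hz p hp
        have a2 := hz q hq
        rw [Fin.sum_univ_succ] at a1 a2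
        simp only [hsum, Bool.or_eq_true]
        refine ⟨by nlinarith [a1.1, a2.1], ?_⟩
        rintro (h | h)
        · nlinarith [a1.2 h, a2.1]
        · nlinarith [a1.1, a2.2 h])
    obtain ⟨B, hB⟩ : ∃ B : ℕ, B = f (2 * (M * M) + M) := ⟨_, rfl⟩
    rw [← hB] at hwb
    obtain ⟨D, hD⟩ : ∃ D : ℤ, D = M.factorial := ⟨_, rfl⟩
    have D0 : 0 < D := by rw [hD]; exact_mod_cast M.factorial_pos
    have D1 : D ≤ M ^ M := by rw [hD]; exact_mod_cast M.factorial_le_pow
    let S : (Fin (n + 1) → ℤ) → ℤ := fun p => ∑ i : Fin n, p i.succ * w i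
    have hS : ∀ p ∈ C, |S p.1| ≤ n * M * B := by
      intro p hp
      refine (abs_sum_le_sum_abs _ _).trans ?_
      calc ∑ i : Fin n, |p.1 i.succ * w i| ≤ ∑ i : Fin n, (M : ℤ) * B := by
            refine sum_le_sum fun i _ => ?_
            rw [abs_mul]
            exact mul_le_mul (hC p hp _) (hwb i) (abs_nonneg _) hM0
        _ = _ := by simp [mul_assoc]
    have hdv : ∀ p ∈ C, p.1 0 ≠ 0 → p.1 0 ∣ D := by
      intro p hp h0
      rw [hD, ← Int.natAbs_dvd, Int.natCast_dvd_natCast]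
      refine Nat.dvd_factorial (Int.natAbs_pos.2 h0) ?_
      have := abs_le.1 (hC p hp 0)
      omega
    obtain ⟨K, hK⟩ : ∃ K : ℤ, K = 2 * D * (n * M * B) := ⟨_, rfl⟩
    have hK2 : ∀ p ∈ C, -K ≤ 2 * D * S p.1 := by
      intro p hp
      have := (abs_le.1 (hS p hp)).1
      rw [hK]; nlinarith
    have K0 : 0 ≤ K := by rw [hK]; positivity
    obtain ⟨t, ⟨t1, t2⟩, t3⟩ := Int.exists_least_of_bdd (P := fun t => -(K + 1) ≤ t ∧
      ∀ p ∈ C, 0 < p.1 0 → 0 ≤ p.1 0 * t + 2 * D * S p.1 ∧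
        (p.2 = true → 0 < p.1 0 * t + 2 * D * S p.1))
      ⟨-(K + 1), fun _ h => h.1⟩ ⟨K + 1, by linarith, fun p hp h0 => by
        have := hK2 p hp
        exact ⟨by nlinarith, fun _ => by nlinarith⟩⟩
    have t4 : t ≤ K + 1 := t3 _ ⟨by linarith, fun p hp h0 => by
        have := hK2 p hp
        exact ⟨by nlinarith, fun _ => by nlinarith⟩⟩
    refine ⟨Fin.cons t fun i => 2 * D * w i, fun q hq => ?_, fun i => ?_⟩
    · have e : ∑ i, q.1 i * (Fin.cons t fun i => 2 * D * w i : Fin (n + 1) → ℤ) i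
          = q.1 0 * t + 2 * D * S q.1 := by
        rw [Fin.sum_univ_succ]
        simp only [Fin.cons_zero, Fin.cons_succ, S, mul_sum]
        exact congrArg _ (sum_congr rfl fun i _ => by ring)
      rw [e]
      rcases lt_trichotomy (q.1 0) 0 with h | h | h
      · rcases t1.eq_or_lt with h1 | h1
        · have := hK2 q hq
          exact ⟨by nlinarith, fun _ => by nlinarith⟩
        · have h2 : ¬ ∀ p ∈ C, 0 < p.1 0 → 0 ≤ p.1 0 * (t - 1) + 2 * D * S p.1 ∧
              (p.2 = true → 0 < p.1 0 * (t - 1) + 2 * D * S p.1) := fun h3 => by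
            have := t3 (t - 1) ⟨by omega, h3⟩
            omega
          push Not at h2
          obtain ⟨p, hp, p0, h3⟩ := h2
          obtain ⟨u, hu⟩ := hdv p hp p0.ne'
          obtain ⟨v, hv⟩ := hdv q hq h.ne
          have c1 := hw _ (Or.inr ⟨p, hp, q, hq, p0, h, rfl⟩)
          simp only [hsum, Bool.or_eq_true] at c1
          obtain ⟨L, hL⟩ : ∃ L, L = u * S p.1 := ⟨_, rfl⟩
          obtain ⟨U, hU⟩ : ∃ U, U = v * S q.1 := ⟨_, rfl⟩
          have e1 : 2 * D * S p.1 = p.1 0 * (2 * L) := by rw [hL, hu]; ring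
          have e2 : 2 * D * S q.1 = q.1 0 * (2 * U) := by rw [hU, hv]; ring
          have e3 : D * (-q.1 0 * S p.1 + p.1 0 * S q.1) = (p.1 0 * -q.1 0) * (L - U) := by
            linear_combination (-q.1 0) * (by linarith : D * S p.1 = p.1 0 * L)
              + p.1 0 * (by linarith : D * S q.1 = q.1 0 * U)
          have pq : 0 < p.1 0 * -q.1 0 := mul_pos p0 (by linarith)
          have c2 : 0 ≤ L - U := by
            have : 0 ≤ (p.1 0 * -q.1 0) * (L - U) := e3 ▸ mul_nonneg D0.le c1.1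
            exact nonneg_of_mul_nonneg_right this pq
          have c3 : p.2 = true ∨ q.2 = true → 0 < L - U := fun hh => by
            have : 0 < (p.1 0 * -q.1 0) * (L - U) := e3 ▸ mul_pos D0 (c1.2 hh)
            exact (pos_iff_pos_of_mul_pos this).1 pq
          rw [e1, ← mul_add] at h3
          rw [e2, ← mul_add]
          have c4 : t + 2 * L ≤ 0 ∨ (p.2 = true ∧ t + 2 * L ≤ 1) := by
            by_cases h5 : t - 1 + 2 * L < 0
            · left; omega
            · right
              obtain ⟨h6, h7⟩ := h3 (mul_nonneg p0.le (not_lt.1 h5))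
              refine ⟨h6, ?_⟩
              by_contra h8
              have := mul_pos p0 (by omega : 0 < t - 1 + 2 * L)
              omega
          refine ⟨mul_nonneg_of_nonpos_of_nonpos h.le ?_, fun hq2 => mul_pos_of_neg_of_neg h ?_⟩
          · rcases c4 with h5 | ⟨h5, h6⟩
            · omega
            · have := c3 (Or.inl h5); omega
          · have := c3 (Or.inr hq2)
            rcases c4 with h5 | ⟨h5, h6⟩ <;> omega
      · have c1 := hw _ (Or.inl ⟨q, hq, h, rfl⟩)
        rw [h, zero_mul, zero_add]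
        exact ⟨mul_nonneg (by linarith) c1.1, fun hh => mul_pos (by linarith) (c1.2 hh)⟩
      · exact t2 q hq h
    · beta_reduce
      rw [← hB]
      push_cast
      have B0 : (0 : ℤ) ≤ B := Nat.cast_nonneg _
      have x0 : (0 : ℤ) ≤ n * M * B := by positivity
      have x1 : D * (n * M * B + B) ≤ M ^ M * (n * M * B + B) :=
        mul_le_mul_of_nonneg_right D1 (by linarith)
      refine Fin.cases ?_ (fun i => ?_) i
      · rw [Fin.cons_zero, abs_le]
        constructor <;> nlinarith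
      · rw [Fin.cons_succ, abs_mul, abs_of_pos (by linarith : 0 < 2 * D)]
        have := mul_le_mul_of_nonneg_left (hwb i) (by linarith : 0 ≤ 2 * D)
        nlinarith

end Pool.Agent.Lib.helper11.SmallSol
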