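import Mathlib

set_option autoImplicit false

namespace Pool.Agent.Lib.helper11.Trunc

open PowerSeries

section
variable {R : Type} [CommRing R]

def Tr (N : ℕ) (f : R⟦X⟧) (l : List R) : Prop := ∀ i < N, coeff i f = l.getD i 0

def ladd : List R → List R → List R
  | [], b => b
  | x :: a, [] => x :: a
  | x :: a, y :: b => (x + y) :: ladd a b

theorem getD_ladd (a b : List R) (i : ℕ) : (ladd a b).getD i 0 = a.getD i 0 + b.getD i 0 := by
  induction a generalizing b i with
  | nil => simp [ladd]
  | cons x a ih =>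
    cases b with
    | nil => simp [ladd]
    | cons y b =>
      cases i with
      | zero => simp [ladd]
      | succ i => simpa [ladd] using ih b i

def lsmul (c : R) (a : List R) : List R := a.map (c * ·)

theorem getD_lsmul (c : R) (a : List R) (i : ℕ) : (lsmul c a).getD i 0 = c * a.getD i 0 := by
  induction a generalizing i with
  | nil => simp [lsmul]
  | cons x a ih =>
    cases i with
    | zero => simp [lsmul]
    | succ i => simpa [lsmul] using ih i

def lshift (k : ℕ) (a : List R) : List R := List.replicate k 0 ++ a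

theorem getD_lshift (k : ℕ) (a : List R) (i : ℕ) :
    (lshift k a).getD i 0 = if k ≤ i then a.getD (i - k) 0 else 0 := by
  induction k generalizing i with
  | zero => simp [lshift]
  | succ k ih =>
    cases i with
    | zero => simp [lshift, List.replicate_succ]
    | succ i =>
      have := ih i
      simp only [lshift, List.replicate_succ, List.cons_append, List.getD_cons_succ] at this ⊢
      rw [this]
      simp

theorem getD_take (N : ℕ) (a : List R) (i : ℕ) (h : i < N) :
    (a.take N).getD i 0 = a.getD i 0 := by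
  simp [List.getD_eq_getElem?_getD, List.getElem?_take, h]

theorem Tr.one (N : ℕ) : Tr N (1 : R⟦X⟧) [1] := by
  intro i _
  cases i with
  | zero => simp
  | succ i => simp [coeff_one]

theorem Tr.add {N : ℕ} {f g : R⟦X⟧} {a b : List R} (h : Tr N f a) (h' : Tr N g b) :
    Tr N (f + g) (ladd a b) := fun i hi => by
  rw [map_add, getD_ladd, h i hi, h' i hi]

theorem Tr.smul {N : ℕ} {f : R⟦X⟧} {a : List R} (c : R) (h : Tr N f a) :
    Tr N (C c * f) (lsmul c a) := fun i hi => by
  rw [coeff_C_mul, getD_lsmul, h i hi]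

theorem Tr.shift {N : ℕ} {f : R⟦X⟧} {a : List R} (k : ℕ) (h : Tr N f a) :
    Tr N (X ^ k * f) (lshift k a) := fun i hi => by
  rw [coeff_X_pow_mul', getD_lshift]
  split_ifs with hk
  · exact h _ (by omega)
  · rfl

theorem Tr.take {N : ℕ} {f : R⟦X⟧} {a : List R} (h : Tr N f a) : Tr N f (a.take N) :=
  fun i hi => by rw [getD_take _ _ _ hi, h i hi]

theorem Tr.congr {N : ℕ} {f g : R⟦X⟧} {a : List R} (h : Tr N f a) (e : X ^ N ∣ g - f) :
    Tr N g a := fun i hi => by
  have := X_pow_dvd_iff.1 e i hi
  rw [map_sub, sub_eq_zero] at this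
  rw [this, h i hi]

theorem Tr.dvd {N : ℕ} {f g : R⟦X⟧} {a : List R} (h : Tr N f a) (h' : Tr N g a) :
    X ^ N ∣ g - f := X_pow_dvd_iff.2 fun i hi => by rw [map_sub, h i hi, h' i hi, sub_self]

def lmul (N : ℕ) : List R → List R → List R
  | [], _ => []
  | x :: a, b => (ladd (lsmul x b) (0 :: lmul N a b)).take N

noncomputable def ofL : List R → R⟦X⟧
  | [] => 0
  | x :: a => C x + X * ofL a

theorem coeff_ofL (a : List R) (i : ℕ) : coeff i (ofL a) = a.getD i 0 := by
  induction a generalizing i with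
  | nil => simp [ofL]
  | cons x a ih =>
    cases i with
    | zero => simp [ofL]
    | succ i => simp [ofL, coeff_succ_X_mul, ih, coeff_C]

theorem Tr.ofL (N : ℕ) (a : List R) : Tr N (ofL a) a := fun i _ => coeff_ofL a i

theorem Tr.mulL {N : ℕ} {g : R⟦X⟧} {b : List R} (h : Tr N g b) (a : List R) :
    Tr N (Trunc.ofL a * g) (lmul N a b) := by
  induction a with
  | nil => intro i _; simp [Trunc.ofL, lmul]
  | cons x a ih =>
    have h1 := (h.smul x).add (ih.shift 1)
    have e : Trunc.ofL (x :: a) * g = C x * g + X ^ 1 * (Trunc.ofL a * g) := by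
      simp only [Trunc.ofL]; ring
    rw [e]
    exact h1.take

theorem Tr.mul {N : ℕ} {f g : R⟦X⟧} {a b : List R} (h : Tr N f a) (h' : Tr N g b) :
    Tr N (f * g) (lmul N a b) := by
  refine (h'.mulL a).congr ?_
  rw [← sub_mul]
  exact ((Tr.ofL N a).dvd h).mul_right _

def lpow (N : ℕ) (a : List R) : ℕ → List R
  | 0 => [1]
  | n + 1 => lmul N a (lpow N a n)

theorem Tr.pow {N : ℕ} {f : R⟦X⟧} {a : List R} (h : Tr N f a) (n : ℕ) :
    Tr N (f ^ n) (lpow N a n) := by
  induction n with
  | zero => simpa [lpow] using Tr.one N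
  | succ n ih => rw [pow_succ']; exact h.mul ih

def lbin (N k : ℕ) (c : R) (a : List R) : List R := (ladd a (lshift k (lsmul c a))).take N

theorem Tr.bin {N : ℕ} {f : R⟦X⟧} {a : List R} (k : ℕ) (c : R) (h : Tr N f a) :
    Tr N ((1 + C c * X ^ k) * f) (lbin N k c a) := by
  have e : (1 + C c * X ^ k) * f = f + X ^ k * (C c * f) := by ring
  rw [e]
  exact (h.add ((h.smul c).shift k)).take

end

def fN {β : Type} (n : ℕ) (k : ℕ → β) : β := Nat.rec (k 0) (fun m _ => k (m + 1)) n

theorem fN_eq {β : Type} (n : ℕ) (k : ℕ → β) : fN n k = k n := by cases n <;> rfl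

noncomputable def fZ {β : Type} (x : ℤ) (k : ℤ → β) : β :=
  Int.rec (fun n => fN n fun m => k (Int.ofNat m)) (fun n => fN n fun m => k (Int.negSucc m)) x

theorem fZ_eq {β : Type} (x : ℤ) (k : ℤ → β) : fZ x k = k x := by
  cases x <;> simp [fZ, fN_eq]

noncomputable def fL {β : Type} (l : List ℤ) : (List ℤ → β) → β :=
  List.rec (fun k => k []) (fun x _ ih k => fZ x fun y => ih fun t => k (y :: t)) l

theorem fL_eq {β : Type} (l : List ℤ) (k : List ℤ → β) : fL l k = k l := by
  induction l generalizing k with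
  | nil => rfl
  | cons x a ih =>
    show (fZ x fun y => fL a fun t => k (y :: t)) = _
    rw [fZ_eq, ih]

noncomputable def binsK {β : Type} (N : ℕ) (L : List (ℕ × ℤ)) : List ℤ → (List ℤ → β) → β :=
  List.rec (fun a k => k a) (fun p _ ih a k => fL (lbin N p.1 p.2 a) fun b => ih b k) L

def bins (N : ℕ) : List (ℕ × ℤ) → List ℤ → List ℤ
  | [], a => a
  | p :: L, a => bins N L (lbin N p.1 p.2 a)

theorem binsK_eq {β : Type} (N : ℕ) (L : List (ℕ × ℤ)) (a : List ℤ) (k : List ℤ → β) :
    binsK N L a k = k (bins N L a) := by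
  induction L generalizing a with
  | nil => rfl
  | cons p L ih =>
    show (fL (lbin N p.1 p.2 a) fun b => binsK N L b k) = _
    rw [fL_eq, ih]; rfl

theorem Tr.bins {N : ℕ} (L : List (ℕ × ℤ)) {f : ℤ⟦X⟧} {a : List ℤ} (h : Tr N f a) :
    Tr N ((L.map fun p => (1 + C p.2 * X ^ p.1 : ℤ⟦X⟧)).prod * f) (bins N L a) := by
  induction L generalizing f a with
  | nil => simpa [Trunc.bins] using h
  | cons p L ih =>
    have := ih (h.bin p.1 p.2)
    rw [List.map_cons, List.prod_cons, mul_comm (1 + _), mul_assoc]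
    exact this

end Pool.Agent.Lib.helper11.Trunc
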